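import Mathlib
import Pool.Agent.H92.CK.Targets

/-!
# Sign functions of a surface: uniqueness, existence, locality (module LSU of MP_0ee698_an)
-/

open MeasureTheory Set Filter Topology Metric
open scoped ENNReal NNReal ContDiff RealInnerProductSpace

namespace Pool.Agent.H51.CK

open Pool.Agent.H94.IC Pool.Agent.H94.AC Pool.Agent.H92.CK

lemma sgu_pos {t : ℝ} (h : 0 < t) : sgu t = 1 := by simp [sgu, h]

lemma sgu_neg {t : ℝ} (h : t < 0) : sgu t = -1 := by simp [sgu, not_lt.mpr h.le]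

/-- a continuous function without zeros on a preconnected set has constant sign -/
lemma sgu_const {A : Set E} {f : E → ℝ} (hA : IsPreconnected A) (hf : ContinuousOn f A)
    (h0 : ∀ x ∈ A, f x ≠ 0) : ∃ c : ℤˣ, ∀ x ∈ A, sgu (f x) = c := by
  by_cases hp : ∃ a ∈ A, 0 < f a
  · obtain ⟨a, ha, hfa⟩ := hp
    refine ⟨1, fun x hx => sgu_pos ?_⟩
    by_contra hneg
    have hx' : f x < 0 := lt_of_le_of_ne (not_lt.mp hneg) (h0 x hx)
    obtain ⟨z, hz, hfz⟩ := hA.intermediate_value hx ha hf ⟨hx'.le, hfa.le⟩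
    exact h0 z hz hfz
  · refine ⟨-1, fun x hx => sgu_neg ?_⟩
    have : ¬ 0 < f x := fun h => hp ⟨x, hx, h⟩
    exact lt_of_le_of_ne (not_lt.mp this) (h0 x hx)

lemma cont2 : Continuous (fun y : E => y 2) := by fun_prop

/-- upper half balls are preconnected -/
lemma half_pos (y0 : E) (s : ℝ) : IsPreconnected {y : E | y ∈ ball y0 s ∧ 0 < y 2} := by
  have h1 : Convex ℝ {y : E | 0 < y 2} := by
    intro x hx y hy a b ha hb hab
    simp only [mem_setOf_eq, PiLp.add_apply, PiLp.smul_apply, smul_eq_mul] at *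
    rcases ha.eq_or_lt with h | h
    · have : b = 1 := by linarith
      subst h; subst this; simpa using hy
    · have : 0 ≤ b * y 2 := mul_nonneg hb hy.le
      have : 0 < a * x 2 := mul_pos h hx
      linarith
  exact ((convex_ball y0 s).inter h1).isPreconnected

/-- lower half balls are preconnected -/
lemma half_neg (y0 : E) (s : ℝ) : IsPreconnected {y : E | y ∈ ball y0 s ∧ y 2 < 0} := by
  have h1 : Convex ℝ {y : E | y 2 < 0} := by
    intro x hx y hy a b ha hb hab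
    simp only [mem_setOf_eq, PiLp.add_apply, PiLp.smul_apply, smul_eq_mul] at *
    rcases ha.eq_or_lt with h | h
    · have : b = 1 := by linarith
      subst h; subst this; simpa using hy
    · have : 0 ≤ b * -y 2 := mul_nonneg hb (by linarith)
      have : 0 < a * -x 2 := mul_pos h (by linarith)
      linarith
  exact ((convex_ball y0 s).inter h1).isPreconnected

/-- comparison of two charts -/
lemma two_charts (S : Set E) (Ψ Ψ' : OpenPartialHomeomorph E E) (p : E) (r : ℝ) (hr : 0 < r)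
    (h1 : ball p r ⊆ Ψ.source) (h1' : ball p r ⊆ Ψ'.source) (h2 : (Ψ p) 2 = 0) (h2' : (Ψ' p) 2 = 0)
    (h3 : ∀ x ∈ Ψ.source, x ∈ S ↔ (Ψ x) 2 = 0) (h3' : ∀ x ∈ Ψ'.source, x ∈ S ↔ (Ψ' x) 2 = 0) :
    ∃ t > 0, t ≤ r ∧ ∃ c : ℤˣ, ∀ y ∈ ball p t, y ∉ S → sgu ((Ψ' y) 2) = c * sgu ((Ψ y) 2) := by
  have hp : p ∈ ball p r := mem_ball_self hr
  have hopen : IsOpen (Ψ '' ball p r) := Ψ.isOpen_image_of_subset_source isOpen_ball h1
  obtain ⟨s, hs, hsub⟩ := Metric.isOpen_iff.mp hopen (Ψ p) ⟨p, hp, rfl⟩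
  have hsym : ∀ y ∈ ball (Ψ p) s, Ψ.symm y ∈ ball p r ∧ Ψ (Ψ.symm y) = y := by
    intro y hy
    obtain ⟨x, hx, rfl⟩ := hsub hy
    rw [Ψ.left_inv (h1 hx)]
    exact ⟨hx, rfl⟩
  have htar : ball (Ψ p) s ⊆ Ψ.target := by
    intro y hy
    obtain ⟨x, hx, rfl⟩ := hsub hy
    exact Ψ.map_source (h1 hx)
  -- the two half images
  have hc : ∀ A : Set E, A ⊆ ball (Ψ p) s → IsPreconnected A → (∀ y ∈ A, y 2 ≠ 0) →
      ∃ c : ℤˣ, ∀ y ∈ A, sgu ((Ψ' (Ψ.symm y)) 2) = c := by
    intro A hA hpre hne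
    refine sgu_const (f := fun y => (Ψ' (Ψ.symm y)) 2) hpre ?_ ?_
    · have hcs : ContinuousOn Ψ.symm A := Ψ.continuousOn_symm.mono (hA.trans htar)
      have hcs' : ContinuousOn Ψ' (ball p r) := Ψ'.continuousOn.mono h1'
      exact cont2.comp_continuousOn (hcs'.comp hcs (fun y hy => (hsym y (hA hy)).1))
    · intro y hy h0
      obtain ⟨hyb, hye⟩ := hsym y (hA hy)
      have hS : Ψ.symm y ∈ S := (h3' _ (h1' hyb)).mpr h0
      have := (h3 _ (h1 hyb)).mp hS
      rw [hye] at this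
      exact hne y hy this
  obtain ⟨cp, hcp⟩ := hc {y | y ∈ ball (Ψ p) s ∧ 0 < y 2} (fun y hy => hy.1) (half_pos _ _)
    (fun y hy => hy.2.ne')
  obtain ⟨cn, hcn⟩ := hc {y | y ∈ ball (Ψ p) s ∧ y 2 < 0} (fun y hy => hy.1) (half_neg _ _)
    (fun y hy => hy.2.ne)
  -- the open set V
  set V : Set E := Ψ.symm '' ball (Ψ p) s with hV
  have hVopen : IsOpen V := by
    have := Ψ.symm.isOpen_image_of_subset_source (s := ball (Ψ p) s) isOpen_ball htar
    exact this
  have hpV : p ∈ V := ⟨Ψ p, mem_ball_self hs, Ψ.left_inv (h1 hp)⟩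
  have hVball : V ⊆ ball p r := by
    rintro x ⟨y, hy, rfl⟩
    exact (hsym y hy).1
  -- signs on V
  have hsgn : ∀ x ∈ V, x ∉ S → (0 < (Ψ x) 2 ∧ sgu ((Ψ' x) 2) = cp) ∨
      ((Ψ x) 2 < 0 ∧ sgu ((Ψ' x) 2) = cn) := by
    rintro x ⟨y, hy, rfl⟩ hxS
    obtain ⟨hyb, hye⟩ := hsym y hy
    have hne : y 2 ≠ 0 := by
      intro h0
      apply hxS
      rw [h3 _ (h1 hyb), hye]
      exact h0
    rcases lt_or_gt_of_ne hne with h | h
    · right
      exact ⟨by rw [hye]; exact h, hcn y ⟨hy, h⟩⟩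
    · left
      exact ⟨by rw [hye]; exact h, hcp y ⟨hy, h⟩⟩
  have hneq : cp ≠ cn := by
    intro heq
    have hall : ∀ x ∈ V, x ∉ S → sgu ((Ψ' x) 2) = cp := by
      intro x hx hxS
      rcases hsgn x hx hxS with h | h
      · exact h.2
      · rw [heq]; exact h.2
    have hop' : IsOpen (Ψ' '' V) := Ψ'.isOpen_image_of_subset_source hVopen (hVball.trans h1')
    obtain ⟨d, hd, hdsub⟩ := Metric.isOpen_iff.mp hop' (Ψ' p) ⟨p, hpV, rfl⟩
    have key : ∀ a : ℝ, |a| < d → a ≠ 0 → sgu a = cp := by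
      intro a ha ha0
      have hmem : Ψ' p + EuclideanSpace.single (2 : Fin 3) a ∈ ball (Ψ' p) d := by
        rw [mem_ball, dist_eq_norm, add_sub_cancel_left, EuclideanSpace.norm_single]
        simpa using ha
      obtain ⟨x, hx, hxe⟩ := hdsub hmem
      have hx2 : (Ψ' x) 2 = a := by
        rw [hxe]
        simp [h2']
      have hxS : x ∉ S := by
        intro hS
        have := (h3' x (h1' (hVball hx))).mp hS
        rw [hx2] at this
        exact ha0 this
      rw [← hx2]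
      exact hall x hx hxS
    have e1 := key (d / 2) (by rw [abs_of_pos (by linarith)]; linarith) (by linarith)
    have e2 := key (-(d / 2)) (by rw [abs_neg, abs_of_pos (by linarith)]; linarith) (by linarith)
    rw [sgu_pos (by linarith)] at e1
    rw [sgu_neg (by linarith), ← e1] at e2
    exact absurd e2 (by decide)
  have hcn' : cn = -cp := by
    rcases Int.units_eq_one_or cp with h | h <;> rcases Int.units_eq_one_or cn with h' | h'
    · exact absurd (h.trans h'.symm) hneq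
    · rw [h, h']
    · rw [h, h', neg_neg]
    · exact absurd (h.trans h'.symm) hneq
  obtain ⟨t, ht, htV⟩ := Metric.isOpen_iff.mp hVopen p hpV
  refine ⟨min t r, lt_min ht hr, min_le_right _ _, cp, ?_⟩
  intro y hy hyS
  have hyV : y ∈ V := htV (ball_subset_ball (min_le_left _ _) hy)
  rcases hsgn y hyV hyS with ⟨h, h'⟩ | ⟨h, h'⟩
  · rw [h', sgu_pos h, mul_one]
  · rw [h', sgu_neg h, hcn', mul_neg, mul_one]

theorem pf_LSU (hEDC : T_EDC) : T_LSU := by
  refine ⟨?_, ?_, ?_⟩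
  · intro S e e' p r r' h h'
    obtain ⟨hr, h⟩ := h
    obtain ⟨hr', h'⟩ := h'
    have hm : 0 < min r r' := lt_min hr hr'
    rcases h with ⟨hd, c, hc⟩ | ⟨Ψ, hsub, hp0, _, _, hS, c, hc⟩
    · rcases h' with ⟨hd', c', hc'⟩ | ⟨Ψ', hsub', hp0', _, _, hS', c', hc'⟩
      · refine ⟨min r r', hm, c * c'⁻¹, fun y hy _ => ?_⟩
        rw [hc y (ball_subset_ball (min_le_left _ _) hy), hc' y (ball_subset_ball (min_le_right _ _) hy),
          inv_mul_cancel_right]
      · exfalso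
        have hpS : p ∈ S := (hS' p (hsub' (mem_ball_self hr'))).mpr hp0'
        exact Set.disjoint_left.mp hd (mem_ball_self hr) hpS
    · rcases h' with ⟨hd', c', hc'⟩ | ⟨Ψ', hsub', hp0', _, _, hS', c', hc'⟩
      · exfalso
        have hpS : p ∈ S := (hS p (hsub (mem_ball_self hr))).mpr hp0
        exact Set.disjoint_left.mp hd' (mem_ball_self hr') hpS
      · obtain ⟨t, ht, htm, k, hk⟩ := two_charts S Ψ Ψ' p (min r r') hm
          ((ball_subset_ball (min_le_left _ _)).trans hsub)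
          ((ball_subset_ball (min_le_right _ _)).trans hsub') hp0 hp0' hS hS'
        refine ⟨t, ht, c * (c' * k)⁻¹, fun y hy hyS => ?_⟩
        rw [hc y (ball_subset_ball (htm.trans (min_le_left _ _)) hy) hyS,
          hc' y (ball_subset_ball (htm.trans (min_le_right _ _)) hy) hyS, hk y hy hyS, ← mul_assoc c' k,
          ← mul_assoc, inv_mul_cancel_right]
  · intro Ω S p hcr hpe
    by_cases hpS : p ∈ S
    · obtain ⟨_, _, _, hint, _⟩ := hEDC Ω S hcr
      obtain ⟨_, Ψ, hps, hp0, hsm, hsm', hS⟩ := hint p hpS hpe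
      obtain ⟨r, hr, hrs⟩ := Metric.isOpen_iff.mp Ψ.open_source p hps
      refine ⟨fun y => sgu ((Ψ y) 2), r, hr, Or.inr ⟨Ψ, hrs, by simp [hp0], hsm, hsm', ?_, 1, ?_⟩⟩
      · intro x hx
        rw [hS x hx]
        simp
      · intro y _ _
        rw [one_mul]
    · obtain ⟨r, hr, hrs⟩ := Metric.isOpen_iff.mp hcr.cpt.isClosed.isOpen_compl p hpS
      refine ⟨fun _ => 1, r, hr, Or.inl ⟨?_, 1, fun _ _ => rfl⟩⟩
      exact Set.disjoint_left.mpr (fun x hx hxS => hrs hx hxS)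
  · intro S e p q r hcl h hq
    obtain ⟨hr, h⟩ := h
    obtain ⟨r1, hr1, hr1s⟩ := Metric.isOpen_iff.mp isOpen_ball q hq
    rcases h with ⟨hd, c, hc⟩ | ⟨Ψ, hsub, hp0, hsm, hsm', hS, c, hc⟩
    · exact ⟨r1, hr1, Or.inl ⟨hd.mono_left hr1s, c, fun y hy => hc y (hr1s hy)⟩⟩
    · by_cases hqS : q ∈ S
      · exact ⟨r1, hr1, Or.inr ⟨Ψ, hr1s.trans hsub, (hS q (hsub hq)).mp hqS, hsm, hsm', hS, c,
          fun y hy hyS => hc y (hr1s hy) hyS⟩⟩
      · obtain ⟨r2, hr2, hr2s⟩ := Metric.isOpen_iff.mp hcl.isOpen_compl q hqS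
        have hb1 : ball q (min r1 r2) ⊆ ball p r := (ball_subset_ball (min_le_left _ _)).trans hr1s
        have hb2 : ball q (min r1 r2) ⊆ Sᶜ := (ball_subset_ball (min_le_right _ _)).trans hr2s
        obtain ⟨k, hk⟩ := sgu_const (A := ball q (min r1 r2)) (f := fun y => (Ψ y) 2)
          (convex_ball _ _).isPreconnected
          (cont2.comp_continuousOn (Ψ.continuousOn.mono (hb1.trans hsub)))
          (fun y hy h0 => hb2 hy ((hS y (hsub (hb1 hy))).mpr h0))
        refine ⟨min r1 r2, lt_min hr1 hr2, Or.inl ⟨?_, c * k, fun y hy => ?_⟩⟩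
        · exact Set.disjoint_left.mpr (fun x hx hxS => hb2 hx hxS)
        · rw [hc y (hb1 hy) (hb2 hy), hk y hy]

end Pool.Agent.H51.CK
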